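import Pool.Agent.helper38.OB.Spec

/-!
# The counting property of B_h-sets: the final statement
-/

set_option autoImplicit false

namespace Pool.Agent.OB

/-- `liminf A(n) / n^(1/h) = 0` -/
def LimZero (h : ℕ) (A : Set ℕ) : Prop :=
  ∀ ε : ℝ, 0 < ε → ∀ N : ℕ, ∃ n : ℕ, N ≤ n ∧
    ((A ∩ Set.Icc 1 n).ncard : ℝ) < ε * (n : ℝ) ^ ((1 : ℝ) / (h : ℝ))

lemma Tup_mono {h : ℕ} {A A' : Set ℕ} (hA : A' ⊆ A) (e : Fin h → ℤ) (P : ℤ → Prop) :
    Tup A' e P ⊆ Tup A e P := fun _ hx => ⟨fun i => hA (hx.1 i), hx.2⟩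

/-- the final form of the odd part: the elements are positive -/
theorem odd_pos (h3 : ODD_stmt) (h : ℕ) (ho : Odd h) (hh : 3 ≤ h) (η : ℝ) (hη : 0 < η) :
    ∃ (A : Set ℕ) (c C : ℝ) (n0 : ℕ), 0 < c ∧ (∀ x ∈ A, 0 < x) ∧
      (∀ n : ℕ, n0 ≤ n → c * (n : ℝ) ^ ((1 : ℝ) / (h : ℝ)) ≤ ((A ∩ Set.Icc 1 n).ncard : ℝ)) ∧
      ∀ e : Fin h → ℤ, Sg e →
        (∀ N : ℕ, 1 ≤ N → (Tup A e fun t => |t| ≤ N).Finite ∧
          ((Tup A e fun t => |t| ≤ N).ncard : ℝ) ≤ η * N) ∧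
        ∀ t : ℤ, (Tup A e fun y => y = t).Finite ∧
          ((Tup A e fun y => y = t).ncard : ℝ) ≤ C * Real.log (|(t : ℝ)| + 2) := by
  obtain ⟨A, c, C, n0, hc, hd, hR⟩ := h3 h ho hh η hη
  have hs : A \ {0} ⊆ A := Set.sdiff_subset
  refine ⟨A \ {0}, c, C, n0, hc, fun x hx => Nat.pos_of_ne_zero fun h0 => hx.2 h0, fun n hn => ?_, fun e he => ⟨fun N hN => ?_, fun t => ?_⟩⟩
  · have e1 : (A \ {0}) ∩ Set.Icc 1 n = A ∩ Set.Icc 1 n := by
      ext x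
      simp only [Set.mem_inter_iff, Set.mem_sdiff, Set.mem_singleton_iff, Set.mem_Icc]
      constructor
      · rintro ⟨⟨h1, _⟩, h2⟩
        exact ⟨h1, h2⟩
      · rintro ⟨h1, h2, h4⟩
        exact ⟨⟨h1, by omega⟩, h2, h4⟩
    rw [e1]
    exact hd n hn
  · obtain ⟨h1, h2⟩ := (hR e he).1 N hN
    have h4 := Tup_mono hs e fun t => |t| ≤ (N : ℤ)
    refine ⟨h1.subset h4, le_trans ?_ h2⟩
    exact_mod_cast Set.ncard_le_ncard h4 h1
  · obtain ⟨h1, h2⟩ := (hR e he).2 t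
    have h4 := Tup_mono hs e fun y => y = t
    refine ⟨h1.subset h4, le_trans ?_ h2⟩
    exact_mod_cast Set.ncard_le_ncard h4 h1

/-- the dichotomy -/
theorem dich (h2 : EVE_stmt) (h3 : ODD_stmt) (h : ℕ) (hh : 2 ≤ h) :
    (∀ A : Set ℕ, Counting h A → LimZero h A) ↔ Even h := by
  constructor
  · intro hA
    by_contra he
    have ho : Odd h := Nat.not_even_iff_odd.mp he
    have h3' : 3 ≤ h := by
      rcases Nat.lt_or_ge h 3 with h4 | h4
      · exfalso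
        have : h = 2 := by omega
        subst this
        exact he (by decide)
      · exact h4
    obtain ⟨A, c, C, n0, hc, -, hd, hR⟩ := odd_pos h3 h ho h3' 1 one_pos
    have hC : Counting h A := by
      refine ⟨1, fun e he N hN => ?_⟩
      obtain ⟨h5, h6⟩ := (hR e he).1 N hN
      refine ⟨h5, ?_⟩
      have : ((Tup A e fun t => |t| ≤ N).ncard : ℝ) ≤ ((1 * N : ℕ) : ℝ) := by
        push_cast
        exact h6
      exact_mod_cast this
    obtain ⟨n, hn, hlt⟩ := hA A hC c hc n0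
    exact absurd (hd n hn) (not_le.mpr hlt)
  · intro he A hA ε hε N
    exact h2 h he hh A hA ε hε N

end Pool.Agent.OB
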