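import Pool.Agent.helper38.OB.CBA

set_option autoImplicit false

namespace Pool.Agent.OB

open Finset

theorem CBB : CBB_stmt := by
  intro m A K s hs hK e he t hN
  refine CBS_step m A K s hs e (fun i n => hK _ (fun j => ?_) n) t hN
  rcases he (i.succAbove j) with h | h
  · rw [h]; exact ⟨one_ne_zero, by push_cast; rw [abs_one]; omega⟩
  · rw [h]; exact ⟨by norm_num, by push_cast; rw [abs_neg, abs_one]; omega⟩

end Pool.Agent.OB
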