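import Pool.Agent.helper38.OB.Spec

set_option autoImplicit false

namespace Pool.Agent.OB

open Finset

lemma DEN_C0 {h : ℕ} (hh : 3 ≤ h) : 16 * h ≤ C0 h := by
  unfold C0; nlinarith

lemma DEN_be {h : ℕ} (hh : 3 ≤ h) : 4 * h ≤ be h := by
  have h1 := DEN_C0 hh
  have h2 : C0 h ≤ C0 h ^ 6 := Nat.le_self_pow (by norm_num) _
  unfold be
  omega

lemma DEN_Bs {h : ℕ} (hh : 3 ≤ h) : 4 * h ≤ Bs h := by
  have h1 := DEN_be hh
  have h2 : be h ≤ be h ^ h := Nat.le_self_pow (by omega) _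
  unfold Bs
  omega

lemma DEN_sub {h l n : ℕ} (hh : 3 ≤ h) (hn : Bs h ^ (l + 1) ≤ n) :
    (S h l : Set ℕ) ⊆ Set.Icc 1 n := by
  intro x hx
  rw [Finset.mem_coe, S, Finset.mem_filter, Finset.mem_range] at hx
  obtain ⟨h1, h2, -⟩ := hx
  have h3 : 4 * h ≤ Bs h ^ (l + 1) := (DEN_Bs hh).trans (Nat.le_self_pow (by omega) _)
  have h4 : 1 ≤ Bs h ^ (l + 1) / (4 * h) := (Nat.one_le_div_iff (by omega)).2 h3
  exact ⟨h4.trans h2, (h1.trans_le hn).le⟩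

theorem DEN (_hBAS : BAS_stmt) : DEN_stmt := by
  intro h hh κ l0 A hκ hA
  have hb : 0 < be h := by
    have := DEN_be hh
    omega
  have hB : 2 ≤ Bs h := by
    have := DEN_Bs hh
    omega
  have hbR : (0 : ℝ) < be h := by exact_mod_cast hb
  refine ⟨κ / (2 * (be h : ℝ) ^ 2), Bs h ^ (l0 + 1), by positivity, fun n hn => ?_⟩
  have hn0 : n ≠ 0 := by
    have : 0 < Bs h ^ (l0 + 1) := Nat.pow_pos (by omega)
    omega
  obtain ⟨l, hl⟩ : ∃ l, Nat.log (Bs h) n = l + 1 := by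
    have : l0 + 1 ≤ Nat.log (Bs h) n := (Nat.le_log_iff_pow_le (by omega) hn0).2 hn
    exact ⟨Nat.log (Bs h) n - 1, by omega⟩
  have h1 : Bs h ^ (l + 1) ≤ n := by
    rw [← hl]
    exact Nat.pow_log_le_self _ hn0
  have h2 : n < Bs h ^ (l + 2) := by
    have := Nat.lt_pow_succ_log_self (b := Bs h) (by omega) n
    rw [hl] at this
    exact this
  have h3 : l0 ≤ l := by
    have : l0 + 1 ≤ Nat.log (Bs h) n := (Nat.le_log_iff_pow_le (by omega) hn0).2 hn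
    omega
  have h4 := hA l h3
  have h5 : A ∩ (S h l : Set ℕ) ⊆ A ∩ Set.Icc 1 n :=
    Set.inter_subset_inter_right A (DEN_sub hh h1)
  have h6 : (A ∩ (S h l : Set ℕ)).ncard ≤ (A ∩ Set.Icc 1 n).ncard :=
    Set.ncard_le_ncard h5 ((Set.finite_Icc 1 n).subset Set.inter_subset_right)
  have h7 : ((A ∩ (S h l : Set ℕ)).ncard : ℝ) ≤ ((A ∩ Set.Icc 1 n).ncard : ℝ) := by exact_mod_cast h6
  have hh0 : (h : ℝ) ≠ 0 := by
    have : h ≠ 0 := by omega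
    exact_mod_cast this
  have h8 : (n : ℝ) ^ ((1 : ℝ) / (h : ℝ)) ≤ (be h : ℝ) ^ (l + 2) := by
    have e1 : ((Bs h : ℝ) ^ (l + 2)) = ((be h : ℝ) ^ (l + 2)) ^ h := by
      unfold Bs
      push_cast
      rw [← pow_mul, ← pow_mul, mul_comm]
    have e2 : (n : ℝ) ≤ (Bs h : ℝ) ^ (l + 2) := by exact_mod_cast h2.le
    calc (n : ℝ) ^ ((1 : ℝ) / (h : ℝ)) ≤ ((Bs h : ℝ) ^ (l + 2)) ^ ((1 : ℝ) / (h : ℝ)) :=
          Real.rpow_le_rpow (Nat.cast_nonneg _) e2 (by positivity)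
      _ = (((be h : ℝ) ^ (l + 2)) ^ h) ^ ((1 : ℝ) / (h : ℝ)) := by rw [e1]
      _ = (be h : ℝ) ^ (l + 2) := by
          rw [← Real.rpow_natCast ((be h : ℝ) ^ (l + 2)) h, ← Real.rpow_mul (by positivity),
            mul_one_div_cancel hh0, Real.rpow_one]
  calc κ / (2 * (be h : ℝ) ^ 2) * (n : ℝ) ^ ((1 : ℝ) / (h : ℝ))
      ≤ κ / (2 * (be h : ℝ) ^ 2) * (be h : ℝ) ^ (l + 2) :=
        mul_le_mul_of_nonneg_left h8 (by positivity)
    _ = κ * (be h : ℝ) ^ l / 2 := by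
        rw [pow_add]
        field_simp
    _ ≤ ((A ∩ Set.Icc 1 n).ncard : ℝ) := h4.trans h7

end Pool.Agent.OB
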