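import Pool.Agent.helper38.OB.Spec
import Pool.Agent.helper80.OB.GE

set_option autoImplicit false

namespace Pool.Agent.OB

open Finset

lemma GF_pr (hWTS : WTS_stmt) (hPRC : PRC_stmt) {h : ℕ} (hh : 3 ≤ h) {κ : ℝ} (hκ : 0 < κ) (hκ1 : κ ≤ 1)
    (l0 L J : ℕ) {j : ℕ} (c : Fin j → ℤ) :
    pr (U h l0 L) (wt h κ) (fun A => (RN c 0 (Bs h ^ J) A).Nonempty) ≤
      Ex h κ (RN c 0 (Bs h ^ J) (U h l0 L)) := by
  have e1 : pr (U h l0 L) (wt h κ) (fun A => (RN c 0 (Bs h ^ J) A).Nonempty) =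
      pr (U h l0 L) (wt h κ)
      (fun A => (1 : ℝ) ≤ ((inn (RN c 0 (Bs h ^ J) (U h l0 L)) im A).card : ℝ)) := by
    refine GE_pr_congr _ _ _ _ fun A hA => ?_
    rw [GE_inn _ _ _ _ _ hA, Nat.one_le_cast, Nat.one_le_iff_ne_zero, Ne, Finset.card_eq_zero,
      ← Ne, Finset.nonempty_iff_ne_empty]
  rw [e1]
  refine le_trans (hPRC (U h l0 L) (wt h κ) (GE_w hWTS h hh κ hκ hκ1 l0 L) _ _ _
    (GE_sub c 0 (Bs h ^ J) (U h l0 L)) _ one_pos) ?_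
  rw [GE_Ex, div_one]

theorem GF (_hBAS : BAS_stmt) (hWTS : WTS_stmt) (hMB : MB_stmt) (hMS : MS_stmt) (hPRC : PRC_stmt) :
    GF_stmt := by
  intro h ho hh κ δ J hκ hκ1 hδ
  obtain ⟨C, hC, hMB⟩ := hMB h hh
  obtain ⟨l2, hl2⟩ := hMS h ho hh J δ hδ
  have hB : (0 : ℝ) < (Bs h : ℝ) ^ J := by
    have : 0 < Bs h := by
      unfold Bs be C0
      positivity
    positivity
  have h1 : Filter.Tendsto (fun n : ℕ => C * (Bs h : ℝ) ^ J * (1 / 2 : ℝ) ^ n) Filter.atTop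
      (nhds (C * (Bs h : ℝ) ^ J * 0)) :=
    (tendsto_pow_atTop_nhds_zero_of_lt_one (by norm_num) (by norm_num)).const_mul _
  rw [mul_zero] at h1
  obtain ⟨l3, hl3⟩ := (h1.eventually (gt_mem_nhds hδ)).exists
  refine ⟨max l2 l3, fun l0 L hl0 => ⟨fun j c hj hjh hc => ?_, fun e he => ?_⟩⟩
  · refine (GF_pr hWTS hPRC hh hκ hκ1 l0 L J c).trans ?_
    have h2 := hMB κ hκ hκ1 l0 L j c hj hjh hc 0 J (max J l0) rfl
    have h3 := GE_half (be h) (GE_be h hh) l0 (max J l0) (le_max_right _ _)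
    calc Ex h κ (RN c 0 (Bs h ^ J) (U h l0 L))
        ≤ C * (Bs h : ℝ) ^ J * ((max J l0 : ℕ) + 1) / (be h : ℝ) ^ (max J l0) := h2
      _ = C * (Bs h : ℝ) ^ J * ((((max J l0 : ℕ) : ℝ) + 1) / (be h : ℝ) ^ (max J l0)) := by
          rw [mul_div_assoc]
      _ ≤ C * (Bs h : ℝ) ^ J * (1 / 2) ^ l0 := mul_le_mul_of_nonneg_left h3 (by positivity)
      _ ≤ C * (Bs h : ℝ) ^ J * (1 / 2) ^ l3 := by
          refine mul_le_mul_of_nonneg_left ?_ (by positivity)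
          exact pow_le_pow_of_le_one (by norm_num) (by norm_num) ((le_max_right _ _).trans hl0)
      _ ≤ δ := hl3.le
  · exact (GF_pr hWTS hPRC hh hκ hκ1 l0 L J e).trans
      (hl2 l0 ((le_max_left _ _).trans hl0) L κ hκ hκ1 e he)

end Pool.Agent.OB
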