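import Pool.Agent.helper38.OB.Def

/-!
# The counting property of B_h-sets: the statements of the rows

Paper: `/team-store/MP_d7d65f_dichotomy_helper38.md`.
-/

namespace Pool.Agent.OB

open Finset

/-! ### The supporting set -/

/-- DIG: numbers `y < B^n`, `B = C b`, whose base `B` digits at the places `m, .., n - 1` are `< b` -/
def DIG_stmt : Prop :=
  ∀ b C n m : ℕ, 1 ≤ b → 1 ≤ C →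
    ((Finset.range ((C * b) ^ n)).filter fun y =>
      ∀ j, m ≤ j → j < n → y % (C * b) ^ (j + 1) < (C * b) ^ (j + 1) / C).card * C ^ (n - m) = (C * b) ^ n

/-- BAS -/
def BAS_stmt : Prop :=
  ∀ h : ℕ, 3 ≤ h → ∀ l : ℕ,
    (∀ x ∈ S h l, lev h x = l ∧ Bs h ^ l ≤ x ∧ 2 * h * x < Bs h ^ (l + 1)) ∧
    (S h l).card * C0 h ^ (dep h l + 1) = Bs h ^ (l + 1) ∧
    dep h l ≤ l ∧ lo h l ≤ lo h (l + 1) ∧ C0 h ^ dep h l ≤ l + 1 ∧ l + 1 < C0 h ^ (dep h l + 1)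

/-- WTS -/
def WTS_stmt : Prop :=
  ∀ h : ℕ, 3 ≤ h → ∀ κ : ℝ, 0 < κ → κ ≤ 1 → ∀ l : ℕ,
    (∀ x ∈ S h l, wt h κ x = pl h κ l) ∧ 0 < pl h κ l ∧ pl h κ l ≤ 1 ∧
    ∑ x ∈ S h l, wt h κ x = κ * (be h : ℝ) ^ l

/-- LOW -/
def LOW_stmt : Prop :=
  ∀ h : ℕ, 3 ≤ h → ∀ κ : ℝ, 0 < κ → κ ≤ 1 → ∀ l0 l J : ℕ,
    ∑ x ∈ U h l0 l, wt h κ x ≤ 2 * κ * (be h : ℝ) ^ l ∧
    ∑ x ∈ (U h l0 l).filter (fun x => lev h x < J), wt h κ x ≤ κ * (be h : ℝ) ^ J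

/-- CEL: an interval of `4 B^J + 1` integers contains at most `6 B^J / C0^(J - lo)` elements of level `l ≥ J` -/
def CEL_stmt : Prop :=
  ∀ h : ℕ, 3 ≤ h → ∀ l J : ℕ, J ≤ l → ∀ s : ℤ,
    ((S h l).filter fun x : ℕ => |(x : ℤ) - s| ≤ 2 * (Bs h : ℤ) ^ J).card * C0 h ^ (J - lo h l) ≤ 6 * Bs h ^ J

/-- KIL: if the sum is small then some element has a low level -/
def KIL_stmt : Prop :=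
  ∀ h : ℕ, Odd h → 3 ≤ h → ∀ (k x : Fin h → ℕ) (e : Fin h → ℤ) (l J : ℕ), Sg e →
    (∀ i, x i ∈ S h (k i)) → (∀ i, k i ≤ l) → |lf e x| ≤ (Bs h : ℤ) ^ J →
    ∃ i, k i < max (lo h l) J

/-- ELI: elimination of one variable -/
def ELI_stmt : Prop :=
  ∀ (j : ℕ) (V : Fin j → Finset ℕ) (w : ℕ → ℝ) (i0 : Fin j) (P : (Fin j → ℕ) → Prop) [DecidablePred P] (p M : ℝ),
    (∀ y, 0 ≤ w y) → 0 ≤ p → 0 ≤ M → (∀ y ∈ V i0, w y ≤ p) →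
    (∀ x ∈ Fintype.piFinset V, (((V i0).filter fun y => P (Function.update x i0 y)).card : ℝ) ≤ M) →
    ∑ x ∈ (Fintype.piFinset V).filter P, ∏ i, w (x i) ≤ M * p * ∏ i ∈ Finset.univ.erase i0, ∑ y ∈ V i, w y

/-! ### Expected numbers, the largest level is `l` -/

/-- the tuples in `F` with an entry of level `l` -/
noncomputable def top (h l : ℕ) {j : ℕ} (F : Finset (Fin j → ℕ)) : Finset (Fin j → ℕ) := by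
  classical
  exact F.filter fun x => ∃ i, lev h (x i) = l

/-- TA -/
def TA_stmt : Prop :=
  ∀ h : ℕ, 3 ≤ h → ∃ C : ℝ, 0 < C ∧ ∀ κ : ℝ, 0 < κ → κ ≤ 1 → ∀ (l0 l j : ℕ) (c : Fin j → ℤ), 1 ≤ j → j < h → Cf h c →
    ∀ n : ℤ, Ex h κ (top h l (RP c n (U h l0 l))) ≤ C * (l + 1) / (be h : ℝ) ^ l

/-- TB -/
def TB_stmt : Prop :=
  ∀ h : ℕ, 3 ≤ h → ∃ C : ℝ, 0 < C ∧ ∀ κ : ℝ, 0 < κ → κ ≤ 1 → ∀ (l0 l j : ℕ) (c : Fin j → ℤ), 1 ≤ j → j < h → Cf h c →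
    ∀ (s : ℤ) (J : ℕ), J ≤ l →
      Ex h κ (top h l (RN c s (Bs h ^ J) (U h l0 l))) ≤ C * (Bs h : ℝ) ^ J * (l + 1) / (be h : ℝ) ^ l

/-- TC -/
def TC_stmt : Prop :=
  ∀ h : ℕ, Odd h → 3 ≤ h → ∃ C : ℝ, 0 < C ∧ ∀ κ : ℝ, 0 < κ → κ ≤ 1 → ∀ (l0 l : ℕ) (e : Fin h → ℤ), Sg e → ∀ J : ℕ, J ≤ l →
    Ex h κ (top h l (RN e 0 (Bs h ^ J) (U h l0 l))) ≤
      C * κ ^ h * (Bs h : ℝ) ^ J / (C0 h : ℝ) ^ (5 * min (l - J) (dep h l))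

/-- TD -/
def TD_stmt : Prop :=
  ∀ h : ℕ, Odd h → 3 ≤ h → ∃ C : ℝ, 0 < C ∧ ∀ κ : ℝ, 0 < κ → κ ≤ 1 → ∀ (l0 l : ℕ) (e : Fin h → ℤ), Sg e → ∀ t : ℤ,
    Ex h κ (top h l (RP e t (U h l0 l))) ≤ C * (l + 1) ∧
    ∀ J : ℕ, J ≤ l → |t| ≤ (Bs h : ℤ) ^ J →
      Ex h κ (top h l (RP e t (U h l0 l))) ≤ C * (C0 h : ℝ) ^ dep h l / (be h : ℝ) ^ (l - max (lo h l) J)

/-! ### Expected numbers -/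

/-- MA -/
def MA_stmt : Prop :=
  ∀ h : ℕ, 3 ≤ h → ∃ C : ℝ, 0 < C ∧ ∀ κ : ℝ, 0 < κ → κ ≤ 1 → ∀ (l0 L j : ℕ) (c : Fin j → ℤ), 1 ≤ j → j < h → Cf h c →
    ∀ (n : ℤ) (M : ℕ), l0 ≤ M → (M = l0 ∨ (h : ℤ) * (Bs h : ℤ) ^ M < |n|) →
      Ex h κ (RP c n (U h l0 L)) ≤ C * (M + 1) / (be h : ℝ) ^ M

/-- MB -/
def MB_stmt : Prop :=
  ∀ h : ℕ, 3 ≤ h → ∃ C : ℝ, 0 < C ∧ ∀ κ : ℝ, 0 < κ → κ ≤ 1 → ∀ (l0 L j : ℕ) (c : Fin j → ℤ), 1 ≤ j → j < h → Cf h c →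
    ∀ (s : ℤ) (J M : ℕ), M = max J l0 →
      Ex h κ (RN c s (Bs h ^ J) (U h l0 L)) ≤ C * (Bs h : ℝ) ^ J * (M + 1) / (be h : ℝ) ^ M

/-- MC -/
def MC_stmt : Prop :=
  ∀ h : ℕ, Odd h → 3 ≤ h → ∃ C : ℝ, 0 < C ∧ ∀ κ : ℝ, 0 < κ → κ ≤ 1 → ∀ (l0 L : ℕ) (e : Fin h → ℤ), Sg e → ∀ J : ℕ,
    Ex h κ (RN e 0 (Bs h ^ J) (U h l0 L)) ≤ C * κ ^ h * (Bs h : ℝ) ^ J

/-- MS -/
def MS_stmt : Prop :=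
  ∀ h : ℕ, Odd h → 3 ≤ h → ∀ (J : ℕ) (δ : ℝ), 0 < δ → ∃ l1 : ℕ, ∀ l0 : ℕ, l1 ≤ l0 → ∀ (L : ℕ) (κ : ℝ), 0 < κ → κ ≤ 1 →
    ∀ e : Fin h → ℤ, Sg e → Ex h κ (RN e 0 (Bs h ^ J) (U h l0 L)) ≤ δ

/-- MD -/
def MD_stmt : Prop :=
  ∀ h : ℕ, Odd h → 3 ≤ h → ∃ C : ℝ, 0 < C ∧ ∀ κ : ℝ, 0 < κ → κ ≤ 1 → ∀ (l0 L : ℕ) (e : Fin h → ℤ), Sg e → ∀ t : ℤ,
    Ex h κ (RP e t (U h l0 L)) ≤ C * (Nat.clog (Bs h) t.natAbs + 1)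

/-- VAR -/
def VAR_stmt : Prop :=
  ∀ h : ℕ, Odd h → 3 ≤ h → ∃ C : ℝ, 0 < C ∧ ∀ κ : ℝ, 0 < κ → κ ≤ 1 → ∀ (l0 L : ℕ) (e : Fin h → ℤ), Sg e → ∀ J : ℕ,
    ∑ x ∈ RN e 0 (Bs h ^ J) (U h l0 L), ∑ y ∈ RN e 0 (Bs h ^ J) (U h l0 L),
      (if Disjoint (im x) (im y) then 0 else ∏ z ∈ im x ∪ im y, wt h κ z) ≤
        C * (J + 1) * (Bs h : ℝ) ^ (2 * J) / (be h : ℝ) ^ J

/-! ### Finite probability -/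

/-- PRA -/
def PRA_stmt : Prop :=
  ∀ (V : Finset ℕ) (w : ℕ → ℝ), (∀ x ∈ V, 0 ≤ w x ∧ w x ≤ 1) →
    pr V w (fun _ => True) = 1 ∧ ∀ T : Finset ℕ, T ⊆ V → pr V w (fun A => T ⊆ A) = ∏ x ∈ T, w x

/-- PRB -/
def PRB_stmt : Prop :=
  ∀ (V : Finset ℕ) (w : ℕ → ℝ), (∀ x ∈ V, 0 ≤ w x ∧ w x ≤ 1) →
    ∀ (ι : Type) (I : Finset ι) (bad : ι → Finset ℕ → Prop), ∑ i ∈ I, pr V w (bad i) < 1 →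
      ∃ A : Finset ℕ, A ⊆ V ∧ ∀ i ∈ I, ¬ bad i A

/-- PRC (Markov) -/
def PRC_stmt : Prop :=
  ∀ (V : Finset ℕ) (w : ℕ → ℝ), (∀ x ∈ V, 0 ≤ w x ∧ w x ≤ 1) →
    ∀ (ι : Type) (F : Finset ι) (T : ι → Finset ℕ), (∀ i ∈ F, T i ⊆ V) → ∀ a : ℝ, 0 < a →
      pr V w (fun A => a ≤ ((inn F T A).card : ℝ)) ≤ (∑ i ∈ F, ∏ x ∈ T i, w x) / a

/-- PRD (disjoint families) -/
def PRD_stmt : Prop :=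
  ∀ (V : Finset ℕ) (w : ℕ → ℝ), (∀ x ∈ V, 0 ≤ w x ∧ w x ≤ 1) →
    ∀ (ι : Type) (F : Finset ι) (T : ι → Finset ℕ), (∀ i ∈ F, T i ⊆ V) → ∀ s : ℕ,
      pr V w (fun A => ∃ G : Finset ι, G ⊆ inn F T A ∧ G.card = s ∧
        ∀ i ∈ G, ∀ k ∈ G, i ≠ k → Disjoint (T i) (T k)) ≤ (∑ i ∈ F, ∏ x ∈ T i, w x) ^ s / (s.factorial : ℝ)

/-- PRE (Chebyshev) -/
def PRE_stmt : Prop :=
  ∀ (V : Finset ℕ) (w : ℕ → ℝ), (∀ x ∈ V, 0 ≤ w x ∧ w x ≤ 1) →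
    ∀ (ι : Type) (F : Finset ι) (T : ι → Finset ℕ), (∀ i ∈ F, T i ⊆ V) → ∀ M D : ℝ, 0 < M →
      ∑ i ∈ F, ∏ x ∈ T i, w x ≤ M →
      ∑ i ∈ F, ∑ k ∈ F, (if Disjoint (T i) (T k) then 0 else ∏ x ∈ T i ∪ T k, w x) ≤ D →
      pr V w (fun A => 2 * M ≤ ((inn F T A).card : ℝ)) ≤ D / M ^ 2

/-- PRF (lower tail) -/
def PRF_stmt : Prop :=
  ∀ (V : Finset ℕ) (w : ℕ → ℝ), (∀ x ∈ V, 0 ≤ w x ∧ w x ≤ 1) →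
    ∀ V' : Finset ℕ, V' ⊆ V → ∀ m : ℝ, 0 < m → ∑ x ∈ V', w x = m →
      pr V w (fun A => ((A ∩ V').card : ℝ) < m / 2) ≤ 4 / m

/-! ### The events -/

/-- GA: the levels are large enough -/
def GA_stmt : Prop :=
  ∀ h : ℕ, 3 ≤ h → ∀ κ δ : ℝ, 0 < κ → κ ≤ 1 → 0 < δ → ∃ l1 : ℕ, ∀ l0 L : ℕ, l1 ≤ l0 →
    ∑ l ∈ Finset.Icc l0 L, pr (U h l0 L) (wt h κ) (fun A => ((A ∩ S h l).card : ℝ) < κ * (be h : ℝ) ^ l / 2) ≤ δ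

/-- GB: few disjoint representations by less than `h` variables -/
def GB_stmt : Prop :=
  ∀ h : ℕ, 3 ≤ h → ∀ κ δ : ℝ, 0 < κ → κ ≤ 1 → 0 < δ → ∃ l1 : ℕ, ∀ l0 L : ℕ, l1 ≤ l0 →
    ∀ (j : ℕ) (c : Fin j → ℤ), 1 ≤ j → j < h → Cf h c → ∀ N : ℕ,
      ∑ n ∈ Finset.Icc (-(N : ℤ)) N, pr (U h l0 L) (wt h κ) (fun A => ¬ NoDisj A c n (2 * h)) ≤ δ

/-- GC: few disjoint representations by `h` variables -/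
def GC_stmt : Prop :=
  ∀ h : ℕ, Odd h → 3 ≤ h → ∀ δ : ℝ, 0 < δ → ∃ K : ℕ, 1 ≤ K ∧ ∀ κ : ℝ, 0 < κ → κ ≤ 1 → ∀ l0 L : ℕ,
    ∀ e : Fin h → ℤ, Sg e → ∀ N : ℕ,
      ∑ t ∈ Finset.Icc (-(N : ℤ)) N, pr (U h l0 L) (wt h κ)
        (fun A => ¬ NoDisj A e t (K * (Nat.clog (Bs h) t.natAbs + 1))) ≤ δ

/-- GD: the number of small sums of `h` elements -/
def GD_stmt : Prop :=
  ∀ h : ℕ, Odd h → 3 ≤ h → ∃ C : ℝ, 0 < C ∧ ∀ κ δ : ℝ, 0 < κ → κ ≤ 1 → 0 < δ → ∃ J1 : ℕ, ∀ J0 J2 l0 L : ℕ, J1 ≤ J0 →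
    ∀ e : Fin h → ℤ, Sg e →
      ∑ J ∈ Finset.Ioc J0 J2, pr (U h l0 L) (wt h κ)
        (fun A => C * κ ^ h * (Bs h : ℝ) ^ J ≤ ((RN e 0 (Bs h ^ J) A).card : ℝ)) ≤ δ

/-- GE: the number of small sums of less than `h` elements -/
def GE_stmt : Prop :=
  ∀ h : ℕ, 3 ≤ h → ∀ κ δ : ℝ, 0 < κ → κ ≤ 1 → 0 < δ → ∃ J1 : ℕ, ∀ J0 J2 l0 L : ℕ, J1 ≤ J0 →
    ∀ (j : ℕ) (c : Fin j → ℤ), 1 ≤ j → j < h → Cf h c →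
      ∑ J ∈ Finset.Ioc J0 J2, pr (U h l0 L) (wt h κ)
        (fun A => κ ^ h * (Bs h : ℝ) ^ J ≤ ((RN c 0 (Bs h ^ J) A).card : ℝ)) ≤ δ

/-- GF: no very small sums -/
def GF_stmt : Prop :=
  ∀ h : ℕ, Odd h → 3 ≤ h → ∀ (κ δ : ℝ) (J : ℕ), 0 < κ → κ ≤ 1 → 0 < δ → ∃ l1 : ℕ, ∀ l0 L : ℕ, l1 ≤ l0 →
    (∀ (j : ℕ) (c : Fin j → ℤ), 1 ≤ j → j < h → Cf h c →
      pr (U h l0 L) (wt h κ) (fun A => (RN c 0 (Bs h ^ J) A).Nonempty) ≤ δ) ∧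
    ∀ e : Fin h → ℤ, Sg e → pr (U h l0 L) (wt h κ) (fun A => (RN e 0 (Bs h ^ J) A).Nonempty) ≤ δ

/-- the good sets: `C`, `K` depend on `h` only -/
structure Good (h : ℕ) (C κ : ℝ) (K J0 l0 L : ℕ) (A : Finset ℕ) : Prop where
  sub : A ⊆ U h l0 L
  ga : ∀ l, l0 ≤ l → l ≤ L → κ * (be h : ℝ) ^ l / 2 ≤ ((A ∩ S h l).card : ℝ)
  gb : ∀ (j : ℕ) (c : Fin j → ℤ), 1 ≤ j → j < h → Cf h c → ∀ n : ℤ, NoDisj A c n (2 * h)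
  gc : ∀ e : Fin h → ℤ, Sg e → ∀ t : ℤ, NoDisj A e t (K * (Nat.clog (Bs h) t.natAbs + 1))
  gd : ∀ e : Fin h → ℤ, Sg e → ∀ J : ℕ, J0 < J → ((RN e 0 (Bs h ^ J) A).card : ℝ) ≤ C * κ ^ h * (Bs h : ℝ) ^ J
  ge : ∀ (j : ℕ) (c : Fin j → ℤ), 1 ≤ j → j < h → Cf h c → ∀ J : ℕ, J0 < J →
    ((RN c 0 (Bs h ^ J) A).card : ℝ) ≤ κ ^ h * (Bs h : ℝ) ^ J
  gf : (∀ (j : ℕ) (c : Fin j → ℤ), 1 ≤ j → j < h → Cf h c → RN c 0 (Bs h ^ J0) A = ∅) ∧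
    ∀ e : Fin h → ℤ, Sg e → RN e 0 (Bs h ^ J0) A = ∅

/-- GOO: good sets exist -/
def GOO_stmt : Prop :=
  ∀ h : ℕ, Odd h → 3 ≤ h → ∃ (C : ℝ) (K : ℕ), 0 < C ∧ 1 ≤ K ∧ ∀ κ : ℝ, 0 < κ → κ ≤ 1 →
    ∃ J0 l0 : ℕ, ∀ L : ℕ, ∃ A : Finset ℕ, Good h C κ K J0 l0 L A

/-! ### Combinatorics -/

/-- CBA: by induction on the number of variables the number of representations is bounded -/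
def CBA_stmt : Prop :=
  ∀ h : ℕ, ∃ K : ℕ, ∀ A : Finset ℕ,
    (∀ (j : ℕ) (c : Fin j → ℤ), 1 ≤ j → j < h → Cf h c → ∀ n : ℤ, NoDisj A c n (2 * h)) →
    ∀ (j : ℕ) (c : Fin j → ℤ), j < h → Cf h c → ∀ n : ℤ, (RP c n A).card ≤ K

/-- CBB -/
def CBB_stmt : Prop :=
  ∀ (m : ℕ) (A : Finset ℕ) (K s : ℕ), 1 ≤ s →
    (∀ c : Fin m → ℤ, Cf (m + 1) c → ∀ n : ℤ, (RP c n A).card ≤ K) →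
    ∀ e : Fin (m + 1) → ℤ, Sg e → ∀ t : ℤ, NoDisj A e t s → (RP e t A).card ≤ s * (m + 1) ^ 2 * K

/-- PAT: a non-cancelling tuple is an injective tuple with larger coefficients -/
def PAT_stmt : Prop :=
  ∀ h : ℕ, 1 ≤ h → ∀ (A : Finset ℕ) (P : ℤ → Prop) (K1 K2 : ℝ), 0 ≤ K1 → 0 ≤ K2 →
    (∀ (j : ℕ) (c : Fin j → ℤ), 1 ≤ j → j < h → Cf h c → ((RQ c P A).card : ℝ) ≤ K1) →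
    (∀ e : Fin h → ℤ, Sg e → ((RQ e P A).card : ℝ) ≤ K2) →
    ∀ e : Fin h → ℤ, Sg e → ((NC e P A).card : ℝ) ≤ (h + 1) * (h : ℝ) ^ h * (K1 + K2)

/-- FIN: the finite sets -/
def FIN_stmt : Prop :=
  ∀ h : ℕ, Odd h → 3 ≤ h → ∀ η : ℝ, 0 < η → ∃ (κ C : ℝ) (l0 : ℕ), 0 < κ ∧ ∀ L : ℕ, ∃ A : Finset ℕ, A ⊆ U h l0 L ∧
    (∀ l, l0 ≤ l → l ≤ L → κ * (be h : ℝ) ^ l / 2 ≤ ((A ∩ S h l).card : ℝ)) ∧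
    ∀ e : Fin h → ℤ, Sg e →
      (∀ N : ℕ, 1 ≤ N → ((NC e (fun t => |t| ≤ N) A).card : ℝ) ≤ η * N) ∧
      ∀ t : ℤ, ((NC e (fun y => y = t) A).card : ℝ) ≤ C * Real.log (|(t : ℝ)| + 2)

/-- LIM: the infinite set -/
def LIM_stmt : Prop :=
  ∀ h : ℕ, Odd h → 3 ≤ h → ∀ η : ℝ, 0 < η → ∃ (κ C : ℝ) (l0 : ℕ) (A : Set ℕ), 0 < κ ∧
    (∀ l, l0 ≤ l → κ * (be h : ℝ) ^ l / 2 ≤ ((A ∩ (S h l : Set ℕ)).ncard : ℝ)) ∧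
    ∀ e : Fin h → ℤ, Sg e →
      (∀ N : ℕ, 1 ≤ N → (Tup A e fun t => |t| ≤ N).Finite ∧ ((Tup A e fun t => |t| ≤ N).ncard : ℝ) ≤ η * N) ∧
      ∀ t : ℤ, (Tup A e fun y => y = t).Finite ∧
        ((Tup A e fun y => y = t).ncard : ℝ) ≤ C * Real.log (|(t : ℝ)| + 2)

/-- DEN -/
def DEN_stmt : Prop :=
  ∀ h : ℕ, 3 ≤ h → ∀ (κ : ℝ) (l0 : ℕ) (A : Set ℕ), 0 < κ →
    (∀ l, l0 ≤ l → κ * (be h : ℝ) ^ l / 2 ≤ ((A ∩ (S h l : Set ℕ)).ncard : ℝ)) →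
    ∃ (c : ℝ) (n0 : ℕ), 0 < c ∧ ∀ n : ℕ, n0 ≤ n →
      c * (n : ℝ) ^ ((1 : ℝ) / (h : ℝ)) ≤ ((A ∩ Set.Icc 1 n).ncard : ℝ)

/-- ODD: the theorem for odd `h` -/
def ODD_stmt : Prop :=
  ∀ h : ℕ, Odd h → 3 ≤ h → ∀ η : ℝ, 0 < η → ∃ (A : Set ℕ) (c C : ℝ) (n0 : ℕ), 0 < c ∧
    (∀ n : ℕ, n0 ≤ n → c * (n : ℝ) ^ ((1 : ℝ) / (h : ℝ)) ≤ ((A ∩ Set.Icc 1 n).ncard : ℝ)) ∧
    ∀ e : Fin h → ℤ, Sg e →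
      (∀ N : ℕ, 1 ≤ N → (Tup A e fun t => |t| ≤ N).Finite ∧ ((Tup A e fun t => |t| ≤ N).ncard : ℝ) ≤ η * N) ∧
      ∀ t : ℤ, (Tup A e fun y => y = t).Finite ∧
        ((Tup A e fun y => y = t).ncard : ℝ) ≤ C * Real.log (|(t : ℝ)| + 2)

/-! ### Even `h` -/

/-- `A(n) ≥ c n^(1/h)` for all large `n` -/
def Dense (h : ℕ) (A : Set ℕ) : Prop :=
  ∃ (c : ℝ) (n0 : ℕ), 0 < c ∧ ∀ n : ℕ, n0 ≤ n →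
    c * (n : ℝ) ^ ((1 : ℝ) / (h : ℝ)) ≤ ((A ∩ Set.Icc 1 n).ncard : ℝ)

/-- pairs of `j`-tuples of elements of `A` with no common entry and nearly equal sums -/
def Qj (A : Set ℕ) (j N : ℕ) : Set ((Fin j → ℕ) × (Fin j → ℕ)) :=
  {p | (∀ i, p.1 i ∈ A) ∧ (∀ i, p.2 i ∈ A) ∧ (∀ i l, p.1 i ≠ p.2 l) ∧
    |(∑ i, (p.1 i : ℤ)) - ∑ i, (p.2 i : ℤ)| ≤ N}

/-- pairs of `k`-tuples with nearly equal sums -/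
def Pk (F : Set ℕ) (k N : ℕ) : Set ((Fin k → ℕ) × (Fin k → ℕ)) :=
  {p | (∀ i, p.1 i ∈ F) ∧ (∀ i, p.2 i ∈ F) ∧ |(∑ i, (p.1 i : ℤ)) - ∑ i, (p.2 i : ℤ)| ≤ N}

/-- UPA -/
def UPA_stmt : Prop :=
  ∀ h : ℕ, 1 ≤ h → ∀ A : Set ℕ, Counting h A →
    ∃ C : ℝ, 0 < C ∧ ∀ n : ℕ, 1 ≤ n → ((A ∩ Set.Icc 1 n).ncard : ℝ) ≤ C * (n : ℝ) ^ ((1 : ℝ) / (h : ℝ))

/-- QJB -/
def QJB_stmt : Prop :=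
  ∀ k : ℕ, 1 ≤ k → ∀ A : Set ℕ, Counting (2 * k) A → Dense (2 * k) A → ∀ j : ℕ, j ≤ k →
    ∃ C : ℝ, 0 < C ∧ ∀ N : ℕ, 1 ≤ N → (Qj A j N).Finite ∧ ((Qj A j N).ncard : ℝ) ≤ C * (N : ℝ) ^ ((j : ℝ) / (k : ℝ))

/-- MAT: removing the common entries -/
def MAT_stmt : Prop :=
  ∀ k : ℕ, ∃ C : ℕ, ∀ (F : Finset ℕ) (N : ℕ),
    (Pk (F : Set ℕ) k N).ncard ≤ C * ∑ j ∈ Finset.range (k + 1), F.card ^ (k - j) * (Qj (F : Set ℕ) j N).ncard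

/-- EVU: the upper bound -/
def EVU_stmt : Prop :=
  ∀ k : ℕ, 1 ≤ k → ∀ A : Set ℕ, Counting (2 * k) A → Dense (2 * k) A →
    ∃ C : ℝ, 0 < C ∧ ∀ N : ℕ, 1 ≤ N → ((Pk (A ∩ Set.Icc 1 (N ^ 2)) k N).ncard : ℝ) ≤ C * N

/-- EVL: the lower bound -/
def EVL_stmt : Prop :=
  ∀ k : ℕ, 1 ≤ k → ∀ A : Set ℕ, Dense (2 * k) A →
    ∃ (c : ℝ) (N0 : ℕ), 0 < c ∧ ∀ N : ℕ, N0 ≤ N →
      c * N * Real.log N ≤ ((Pk (A ∩ Set.Icc 1 (N ^ 2)) k N).ncard : ℝ)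

/-- EVE: the theorem for even `h` -/
def EVE_stmt : Prop :=
  ∀ h : ℕ, Even h → 2 ≤ h → ∀ A : Set ℕ, Counting h A →
    ∀ ε : ℝ, 0 < ε → ∀ N : ℕ, ∃ n : ℕ, N ≤ n ∧ ((A ∩ Set.Icc 1 n).ncard : ℝ) < ε * (n : ℝ) ^ ((1 : ℝ) / (h : ℝ))

/-- BHC: B_h-sets have the counting property -/
def BHC_stmt : Prop := ∀ h : ℕ, 1 ≤ h → ∀ A : Set ℕ, IsBh h A → Counting h A

end Pool.Agent.OB
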