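import Pool.Agent.helper11.OB.EVU
import Pool.Agent.helper14.OB.BAS
import Pool.Agent.helper15.OB.ELI
import Pool.Agent.helper15.OB.QJB
import Pool.Agent.helper20.OB.LOW
import Pool.Agent.helper20.OB.TD
import Pool.Agent.helper27.OB.EVL
import Pool.Agent.helper27.OB.FIN
import Pool.Agent.helper27.OB.PRE
import Pool.Agent.helper27.OB.UPA
import Pool.Agent.helper31.OB.TB
import Pool.Agent.helper33.OB.GOO
import Pool.Agent.helper33.OB.MAT
import Pool.Agent.helper38.OB.CBA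
import Pool.Agent.helper38.OB.CBB
import Pool.Agent.helper38.OB.DEN
import Pool.Agent.helper38.OB.GF
import Pool.Agent.helper40.OB.EVE
import Pool.Agent.helper54.OB.MA
import Pool.Agent.helper56.OB.GC
import Pool.Agent.helper56.OB.PRB
import Pool.Agent.helper56.OB.PRF
import Pool.Agent.helper58.OB.LIM
import Pool.Agent.helper58.OB.PAT
import Pool.Agent.helper59.OB.MC
import Pool.Agent.helper59.OB.MD
import Pool.Agent.helper59.OB.TA
import Pool.Agent.helper60.OB.MB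
import Pool.Agent.helper63.OB.CEL
import Pool.Agent.helper68.OB.DIG
import Pool.Agent.helper73.OB.BHC
import Pool.Agent.helper73.OB.TC
import Pool.Agent.helper80.OB.GA
import Pool.Agent.helper80.OB.GD
import Pool.Agent.helper80.OB.GE
import Pool.Agent.helper84.OB.MS
import Pool.Agent.helper87.OB.WTS
import Pool.Agent.helper88.OB.VAR
import Pool.Agent.helper93.OB.PRC
import Pool.Agent.helper96.OB.KIL
import Pool.Agent.helper99.OB.PRA
import Pool.Agent.helper99.OB.PRD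

/-!
# The counting property of B_h-sets: assembly
-/

namespace Pool.Agent.OB

theorem t_DIG : DIG_stmt := DIG

theorem t_BAS : BAS_stmt := BAS t_DIG

theorem t_WTS : WTS_stmt := WTS t_BAS

theorem t_LOW : LOW_stmt := LOW t_BAS t_WTS

theorem t_CEL : CEL_stmt := CEL t_DIG

theorem t_KIL : KIL_stmt := KIL t_BAS

theorem t_ELI : ELI_stmt := ELI

theorem t_TA : TA_stmt := TA t_BAS t_WTS t_LOW t_ELI

theorem t_TB : TB_stmt := TB t_BAS t_WTS t_LOW t_ELI t_CEL

theorem t_TC : TC_stmt := TC t_BAS t_WTS t_LOW t_ELI t_CEL t_KIL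

theorem t_TD : TD_stmt := TD t_BAS t_WTS t_LOW t_ELI t_KIL

theorem t_MA : MA_stmt := MA t_BAS t_WTS t_TA

theorem t_MB : MB_stmt := MB t_BAS t_WTS t_LOW t_TB

theorem t_MC : MC_stmt := MC t_BAS t_WTS t_LOW t_TC

theorem t_MS : MS_stmt := MS t_BAS t_WTS t_TC

theorem t_MD : MD_stmt := MD t_BAS t_WTS t_TD

theorem t_VAR : VAR_stmt := VAR t_BAS t_WTS t_MB t_MC

theorem t_PRA : PRA_stmt := PRA

theorem t_PRB : PRB_stmt := PRB t_PRA

theorem t_PRC : PRC_stmt := PRC t_PRA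

theorem t_PRD : PRD_stmt := PRD t_PRA

theorem t_PRE : PRE_stmt := PRE t_PRA

theorem t_PRF : PRF_stmt := PRF t_PRA

theorem t_GA : GA_stmt := GA t_BAS t_WTS t_PRF

theorem t_GB : GB_stmt := GB t_BAS t_WTS t_MA t_PRD

theorem t_GC : GC_stmt := GC t_BAS t_WTS t_MD t_PRD

theorem t_GD : GD_stmt := GD t_BAS t_WTS t_MC t_VAR t_PRE

theorem t_GE : GE_stmt := GE t_BAS t_WTS t_MB t_PRC

theorem t_GF : GF_stmt := GF t_BAS t_WTS t_MB t_MS t_PRC

theorem t_GOO : GOO_stmt := GOO t_BAS t_WTS t_PRA t_PRB t_GA t_GB t_GC t_GD t_GE t_GF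

theorem t_CBA : CBA_stmt := CBA

theorem t_CBB : CBB_stmt := CBB

theorem t_PAT : PAT_stmt := PAT

theorem t_FIN : FIN_stmt := FIN t_GOO t_CBA t_CBB t_PAT

theorem t_LIM : LIM_stmt := LIM t_FIN

theorem t_DEN : DEN_stmt := DEN t_BAS

theorem t_UPA : UPA_stmt := UPA

theorem t_QJB : QJB_stmt := QJB

theorem t_MAT : MAT_stmt := MAT

theorem t_EVU : EVU_stmt := EVU t_UPA t_QJB t_MAT

theorem t_EVL : EVL_stmt := EVL

theorem t_EVE : EVE_stmt := EVE t_EVU t_EVL

theorem t_BHC : BHC_stmt := BHC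

theorem t_ODD : ODD_stmt := by
  intro h ho h3 η hη
  obtain ⟨κ, C, l0, A, hκ, hA, hB⟩ := t_LIM h ho h3 η hη
  obtain ⟨c, n0, hc, hn⟩ := t_DEN h h3 κ l0 A hκ hA
  exact ⟨A, c, C, n0, hc, hn, hB⟩

end Pool.Agent.OB
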