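import Pool.Agent.helper38.OB.Spec

set_option autoImplicit false

namespace Pool.Agent.OB

open Finset

lemma CBS_mem {j : ℕ} (c : Fin j → ℤ) (t : ℤ) (V : Finset ℕ) (x : Fin j → ℕ) :
    x ∈ RP c t V ↔ ((∀ i, x i ∈ V) ∧ Function.Injective x) ∧ lf c x = t := by
  classical
  simp only [RP, RQ, Inj, Finset.mem_filter, Fintype.mem_piFinset]

lemma CBS_im {j : ℕ} (x : Fin j → ℕ) (i : Fin j) : x i ∈ im x := by
  unfold im
  exact Finset.mem_image_of_mem x (Finset.mem_univ i)

lemma CBS_im_card {j : ℕ} (x : Fin j → ℕ) : (im x).card ≤ j := by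
  unfold im
  exact Finset.card_image_le.trans (by simp)

/-- the step: fix one entry -/
lemma CBS_step (m : ℕ) (A : Finset ℕ) (K s : ℕ) (_hs : 1 ≤ s) (c : Fin (m + 1) → ℤ)
    (hK : ∀ (i : Fin (m + 1)) (n : ℤ), (RP (fun j => c (i.succAbove j)) n A).card ≤ K) (t : ℤ)
    (hN : NoDisj A c t s) : (RP c t A).card ≤ s * (m + 1) ^ 2 * K := by
  classical
  -- a maximal disjoint family
  obtain ⟨D, hD⟩ : ∃ D : Finset (Fin (m + 1) → ℕ) → Prop, ∀ G, D G ↔ G ⊆ RP c t A ∧
      ∀ x ∈ G, ∀ y ∈ G, x ≠ y → Disjoint (im x) (im y) := ⟨_, fun _ => Iff.rfl⟩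
  have h0 : ((RP c t A).powerset.filter D).Nonempty :=
    ⟨∅, Finset.mem_filter.2 ⟨Finset.mem_powerset.2 (Finset.empty_subset _),
      (hD ∅).2 ⟨Finset.empty_subset _, fun x hx => absurd hx (Finset.notMem_empty x)⟩⟩⟩
  obtain ⟨G, hG, hmax⟩ := Finset.exists_max_image _ Finset.card h0
  rw [Finset.mem_filter, Finset.mem_powerset] at hG
  obtain ⟨hGs, hGD⟩ := hG
  have hGd := ((hD G).1 hGD).2
  have hGc : G.card < s := by
    by_contra h
    push Not at h
    obtain ⟨G', hG', hc⟩ := Finset.exists_subset_card_eq h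
    exact hN ⟨G', hG'.trans hGs, hc, fun x hx y hy => hGd x (hG' hx) y (hG' hy)⟩
  obtain ⟨W, hW⟩ : ∃ W : Finset ℕ, W = G.biUnion im := ⟨_, rfl⟩
  have hWc : W.card ≤ s * (m + 1) := by
    rw [hW]
    calc (G.biUnion im).card ≤ G.card * (m + 1) :=
          Finset.card_biUnion_le_card_mul _ _ _ fun x _ => CBS_im_card x
      _ ≤ s * (m + 1) := Nat.mul_le_mul_right _ hGc.le
  have hhit : ∀ x ∈ RP c t A, ∃ i, x i ∈ W := by
    intro x hx
    by_contra hne
    push Not at hne
    have hdis : ∀ y ∈ G, Disjoint (im x) (im y) := by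
      intro y hy
      rw [Finset.disjoint_left]
      intro z hz hz'
      unfold im at hz
      rw [Finset.mem_image] at hz
      obtain ⟨i, -, rfl⟩ := hz
      exact hne i (by rw [hW]; exact Finset.mem_biUnion.2 ⟨y, hy, hz'⟩)
    have hxG : x ∉ G := by
      intro hxG
      exact hne 0 (by rw [hW]; exact Finset.mem_biUnion.2 ⟨x, hxG, CBS_im x 0⟩)
    have h1 : insert x G ∈ (RP c t A).powerset.filter D := by
      rw [Finset.mem_filter, Finset.mem_powerset]
      have h2 : insert x G ⊆ RP c t A := Finset.insert_subset hx hGs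
      refine ⟨h2, (hD _).2 ⟨h2, ?_⟩⟩
      intro a ha b hb hab
      rw [Finset.mem_insert] at ha hb
      rcases ha with rfl | ha
      · rcases hb with rfl | hb
        · exact absurd rfl hab
        · exact hdis b hb
      · rcases hb with rfl | hb
        · exact (hdis a ha).symm
        · exact hGd a ha b hb hab
    have h3 := hmax _ h1
    rw [Finset.card_insert_of_notMem hxG] at h3
    omega
  have hcov : RP c t A ⊆ ((Finset.univ : Finset (Fin (m + 1))) ×ˢ W).biUnion fun p =>
      (RP c t A).filter fun x => x p.1 = p.2 := by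
    intro x hx
    obtain ⟨i, hi⟩ := hhit x hx
    rw [Finset.mem_biUnion]
    exact ⟨(i, x i), Finset.mem_product.2 ⟨Finset.mem_univ _, hi⟩, Finset.mem_filter.2 ⟨hx, rfl⟩⟩
  have hfib : ∀ p ∈ (Finset.univ : Finset (Fin (m + 1))) ×ˢ W,
      ((RP c t A).filter fun x => x p.1 = p.2).card ≤ K := by
    rintro ⟨i, y⟩ -
    refine le_trans ?_ (hK i (t - c i * (y : ℤ)))
    refine Finset.card_le_card_of_injOn (fun x j => x (i.succAbove j)) ?_ ?_
    · intro x hx
      rw [Finset.mem_coe, Finset.mem_filter, CBS_mem] at hx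
      obtain ⟨⟨⟨h1, h2⟩, h3⟩, h4⟩ := hx
      rw [Finset.mem_coe, CBS_mem]
      refine ⟨⟨fun j => h1 _, fun a b hab => Fin.succAbove_right_injective (h2 hab)⟩, ?_⟩
      have h5 : lf c x = c i * (x i : ℤ) + lf (fun j => c (i.succAbove j)) fun j => x (i.succAbove j) := by
        unfold lf
        rw [Fin.sum_univ_succAbove _ i]
      rw [h3] at h5
      have h4' : x i = y := h4
      rw [h4'] at h5
      linarith
    · intro x hx x' hx' hxx
      rw [Finset.mem_coe, Finset.mem_filter] at hx hx'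
      funext j
      rcases Fin.eq_self_or_eq_succAbove i j with h | ⟨k, h⟩
      · rw [h]
        have e1 : x i = y := hx.2
        have e2 : x' i = y := hx'.2
        rw [e1, e2]
      · rw [h]
        exact congrFun hxx k
  calc (RP c t A).card ≤ (((Finset.univ : Finset (Fin (m + 1))) ×ˢ W).biUnion fun p =>
        (RP c t A).filter fun x => x p.1 = p.2).card := Finset.card_le_card hcov
    _ ≤ ((Finset.univ : Finset (Fin (m + 1))) ×ˢ W).card * K := Finset.card_biUnion_le_card_mul _ _ _ hfib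
    _ = (m + 1) * W.card * K := by rw [Finset.card_product, Finset.card_univ, Fintype.card_fin]
    _ ≤ (m + 1) * (s * (m + 1)) * K := by gcongr
    _ = s * (m + 1) ^ 2 * K := by ring

theorem CBA : CBA_stmt := by
  intro h
  have key : ∀ J : ℕ, ∃ K : ℕ, ∀ A : Finset ℕ,
      (∀ (j : ℕ) (c : Fin j → ℤ), 1 ≤ j → j < h → Cf h c → ∀ n : ℤ, NoDisj A c n (2 * h)) →
      ∀ (j : ℕ) (c : Fin j → ℤ), j ≤ J → j < h → Cf h c → ∀ n : ℤ, (RP c n A).card ≤ K := by
    intro J
    induction J with
    | zero =>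
      refine ⟨1, fun A _ j c hj _ _ n => ?_⟩
      have : j = 0 := by omega
      subst this
      exact Finset.card_le_one.2 fun a _ b _ => Subsingleton.elim a b
    | succ J ih =>
      obtain ⟨K, hK⟩ := ih
      refine ⟨K + 2 * h * (J + 1) ^ 2 * K, fun A hA j c hj hjh hc n => ?_⟩
      rcases Nat.lt_or_ge j (J + 1) with h1 | h1
      · exact (hK A hA j c (by omega) hjh hc n).trans (Nat.le_add_right _ _)
      · have : j = J + 1 := by omega
        subst this
        refine (CBS_step J A K (2 * h) (by omega) c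
          (fun i n => hK A hA J _ le_rfl (by omega) (fun j => hc _) n) n (hA _ c (by omega) hjh hc n)).trans
          (Nat.le_add_left _ _)
  obtain ⟨K, hK⟩ := key h
  exact ⟨K, fun A hA j c hjh hc n => hK A hA j c hjh.le hjh hc n⟩

end Pool.Agent.OB
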