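import Mathlib

/-!
# The counting property of B_h-sets: definitions

`C_h`: the number of non-cancelling `x ∈ A^h` with `|∑ e_i x_i| ≤ N` is at most `K N`, for all signs `e` and all `N ≥ 1`.
-/

namespace Pool.Agent.OB

open Finset

/-! ### The statement -/

/-- B_h-sets: all sums of `h` elements (repetitions allowed) are different -/
def IsBh (h : ℕ) (A : Set ℕ) : Prop :=
  ∀ s t : Multiset ℕ, Multiset.card s = h → Multiset.card t = h →
    (∀ x ∈ s, x ∈ A) → (∀ x ∈ t, x ∈ A) → s.sum = t.sum → s = t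

/-- the signs `e_i` are `1` or `-1` -/
def Sg {h : ℕ} (e : Fin h → ℤ) : Prop := ∀ i, e i = 1 ∨ e i = -1

/-- the non-cancelling `x ∈ A^h` (`x_i ≠ x_j` if `e_i ≠ e_j`) for which `∑ e_i x_i` has the property `P` -/
def Tup {h : ℕ} (A : Set ℕ) (e : Fin h → ℤ) (P : ℤ → Prop) : Set (Fin h → ℕ) :=
  {x | (∀ i, x i ∈ A) ∧ (∀ i j, e i ≠ e j → x i ≠ x j) ∧ P (∑ i, e i * (x i : ℤ))}

/-- the property `C_h`: for all signs `e` and all `N ≥ 1` at most `K N` non-cancelling `x ∈ A^h` have `|∑ e_i x_i| ≤ N` -/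
def Counting (h : ℕ) (A : Set ℕ) : Prop :=
  ∃ K : ℕ, ∀ e : Fin h → ℤ, Sg e → ∀ N : ℕ, 1 ≤ N →
    (Tup A e fun t => |t| ≤ N).Finite ∧ (Tup A e fun t => |t| ≤ N).ncard ≤ K * N

/-! ### Numbers and the supporting set -/

/-- `16 h^2` -/
def C0 (h : ℕ) : ℕ := 16 * h ^ 2

/-- `β` -/
def be (h : ℕ) : ℕ := C0 h ^ 6

/-- the base `B = β^h` -/
def Bs (h : ℕ) : ℕ := be h ^ h

/-- the number of restricted digits below the leading digit -/
def dep (h l : ℕ) : ℕ := Nat.log (C0 h) (l + 1)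

/-- the digits at the places `lo, .., l - 1` of the elements of level `l` are restricted -/
def lo (h l : ℕ) : ℕ := l - dep h l

/-- the block of level `l` of the supporting set -/
def S (h l : ℕ) : Finset ℕ :=
  (Finset.range (Bs h ^ (l + 1))).filter fun x =>
    Bs h ^ (l + 1) / (4 * h) ≤ x ∧ x < Bs h ^ (l + 1) / (4 * h) + Bs h ^ (l + 1) / C0 h ∧
      ∀ j, lo h l ≤ j → j < l → x % Bs h ^ (j + 1) < Bs h ^ (j + 1) / C0 h

/-- the levels `l0, .., L` -/
def U (h l0 L : ℕ) : Finset ℕ := (Finset.Icc l0 L).biUnion (S h)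

/-- the level of `x` -/
def lev (h x : ℕ) : ℕ := Nat.log (Bs h) x

noncomputable section

/-- the value of the weight at the elements of level `l` -/
def pl (h : ℕ) (κ : ℝ) (l : ℕ) : ℝ :=
  κ * (be h : ℝ) ^ l * (C0 h : ℝ) ^ (dep h l + 1) / (Bs h : ℝ) ^ (l + 1)

/-- the weight -/
def wt (h : ℕ) (κ : ℝ) (x : ℕ) : ℝ := pl h κ (lev h x)

/-! ### Tuples and linear forms -/

/-- injective `j`-tuples of elements of `V` -/
def Inj (j : ℕ) (V : Finset ℕ) : Finset (Fin j → ℕ) := by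
  classical
  exact (Fintype.piFinset fun _ : Fin j => V).filter Function.Injective

/-- `∑ c_i x_i` -/
def lf {j : ℕ} (c : Fin j → ℤ) (x : Fin j → ℕ) : ℤ := ∑ i, c i * (x i : ℤ)

/-- the injective tuples with `P (∑ c_i x_i)` -/
def RQ {j : ℕ} (c : Fin j → ℤ) (P : ℤ → Prop) (V : Finset ℕ) : Finset (Fin j → ℕ) := by
  classical
  exact (Inj j V).filter fun x => P (lf c x)

/-- the injective tuples with `∑ c_i x_i = t` -/
def RP {j : ℕ} (c : Fin j → ℤ) (t : ℤ) (V : Finset ℕ) : Finset (Fin j → ℕ) := RQ c (fun y => y = t) V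

/-- the injective tuples with `|s + ∑ c_i x_i| ≤ N` -/
def RN {j : ℕ} (c : Fin j → ℤ) (s : ℤ) (N : ℕ) (V : Finset ℕ) : Finset (Fin j → ℕ) :=
  RQ c (fun y => |s + y| ≤ N) V

/-- coefficients `c_i ≠ 0`, `|c_i| ≤ h` -/
def Cf (h : ℕ) {j : ℕ} (c : Fin j → ℤ) : Prop := ∀ i, c i ≠ 0 ∧ |c i| ≤ h

/-- the expected number of the tuples in `F` all whose entries are chosen -/
def Ex (h : ℕ) (κ : ℝ) {j : ℕ} (F : Finset (Fin j → ℕ)) : ℝ := ∑ x ∈ F, ∏ i, wt h κ (x i)

/-- the set of the entries of `x` -/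
def im {j : ℕ} (x : Fin j → ℕ) : Finset ℕ := Finset.univ.image x

/-- there are no `s` representations of `t` with pairwise disjoint sets of entries -/
def NoDisj {j : ℕ} (A : Finset ℕ) (c : Fin j → ℤ) (t : ℤ) (s : ℕ) : Prop :=
  ¬ ∃ G : Finset (Fin j → ℕ), G ⊆ RP c t A ∧ G.card = s ∧
    ∀ x ∈ G, ∀ y ∈ G, x ≠ y → Disjoint (im x) (im y)

/-- the non-cancelling tuples in `A^h` with `P (∑ e_i x_i)` -/
def NC {h : ℕ} (e : Fin h → ℤ) (P : ℤ → Prop) (A : Finset ℕ) : Finset (Fin h → ℕ) := by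
  classical
  exact (Fintype.piFinset fun _ : Fin h => A).filter fun x =>
    (∀ i j, e i ≠ e j → x i ≠ x j) ∧ P (lf e x)

/-! ### Finite probability -/

/-- the probability of the event `P` for a random subset `A` of `V`, `x ∈ A` with probability `w x`, independently -/
def pr (V : Finset ℕ) (w : ℕ → ℝ) (P : Finset ℕ → Prop) : ℝ := by
  classical
  exact ∑ A ∈ V.powerset.filter P, (∏ x ∈ A, w x) * ∏ x ∈ V \ A, (1 - w x)

/-- the members of the family `F` of sets `T i` which are contained in `A` -/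
def inn {ι : Type} (F : Finset ι) (T : ι → Finset ℕ) (A : Finset ℕ) : Finset ι := by
  classical
  exact F.filter fun i => T i ⊆ A

end

end Pool.Agent.OB
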